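import Pool.Agent.U409.OA.Stm3

set_option autoImplicit false

/-!
# Project OA, package DEG: the partition functions are polynomials in the first variable
-/

namespace Pool.Agent.U588.OA

open Finset Polynomial Pool.Agent.U409.OA

variable {R : Type} [CommRing R] (ι : ℂ → R)

/-- `f` is a polynomial in `ι x` of degree less than `n`. -/
def Q (n : ℕ) (f : ℂ → R) : Prop :=
  ∃ P : Polynomial R, (∀ i, n ≤ i → P.coeff i = 0) ∧ ∀ x, f x = P.eval (ι x)

theorem Q_congr {n : ℕ} {f g : ℂ → R} (hf : Q ι n f) (h : ∀ x, g x = f x) : Q ι n g := by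
  obtain ⟨P, hP, hP'⟩ := hf
  exact ⟨P, hP, fun x => by rw [h, hP']⟩

theorem Q_add {n : ℕ} {f g : ℂ → R} (hf : Q ι n f) (hg : Q ι n g) : Q ι n (fun x => f x + g x) := by
  obtain ⟨P, hP, hP'⟩ := hf
  obtain ⟨S, hS, hS'⟩ := hg
  exact ⟨P + S, fun i hi => by rw [coeff_add, hP i hi, hS i hi, add_zero],
    fun x => by simp only; rw [eval_add, hP', hS']⟩

theorem Q_smul {n : ℕ} (c : R) {f : ℂ → R} (hf : Q ι n f) : Q ι n (fun x => c * f x) := by
  obtain ⟨P, hP, hP'⟩ := hf
  exact ⟨C c * P, fun i hi => by rw [coeff_C_mul, hP i hi, mul_zero],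
    fun x => by simp only; rw [eval_mul, eval_C, hP']⟩

theorem Q_lin {n : ℕ} (c d : R) {f : ℂ → R} (hf : Q ι n f) :
    Q ι (n + 1) (fun x => (c * ι x + d) * f x) := by
  obtain ⟨P, hP, hP'⟩ := hf
  refine ⟨C c * (X * P) + C d * P, ?_, ?_⟩
  · intro i hi
    obtain ⟨j, rfl⟩ : ∃ j, i = j + 1 := ⟨i - 1, by omega⟩
    rw [coeff_add, coeff_C_mul, coeff_C_mul, coeff_X_mul, hP j (by omega), hP (j + 1) (by omega)]
    ring
  · intro x
    simp only
    rw [eval_add, eval_mul, eval_mul, eval_mul, eval_C, eval_C, eval_X, hP']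
    ring

theorem Q_zero (n : ℕ) : Q ι n (fun _ => 0) := ⟨0, by simp, by simp⟩

theorem Q_const (n : ℕ) (c : R) : Q ι (n + 1) (fun _ => c) :=
  ⟨C c, fun i hi => coeff_C_of_ne_zero (by omega), by simp⟩

theorem row_true (zz : R) : ∀ (v : List ℂ) (k : Bool → List Bool → R),
    Q ι (v.length + 1) (fun x => row (fun a b => cw zz (ι a * ι b)) x v true
      (List.replicate v.length false) k)
  | [], k => by
      refine Q_congr ι (Q_const ι 0 (k true [])) ?_
      intro x
      simp [row]
  | y :: v, k => by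
      have ih := row_true zz v (fun t l => k t (false :: l))
      refine Q_congr ι (Q_lin ι (-ι y) (zz ^ 2) ih) ?_
      intro x
      simp only [List.length_cons, List.replicate_succ, row, Fintype.sum_bool, cw]
      ring

theorem row_false (zz : R) : ∀ (v : List ℂ) (k : Bool → List Bool → R), (∀ l, k false l = 0) →
    Q ι v.length (fun x => row (fun a b => cw zz (ι a * ι b)) x v false
      (List.replicate v.length false) k)
  | [], k, hk => by
      refine Q_congr ι (Q_zero ι 0) ?_
      intro x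
      simp [row, hk]
  | y :: v, k, hk => by
      have ih := row_false zz v (fun t l => k t (false :: l)) (fun l => hk _)
      have ih2 := row_true ι zz v (fun t l => k t (true :: l))
      refine Q_congr ι (Q_add ι (Q_lin ι (zz ^ 2 * ι y) (-1) ih) (Q_smul ι (zz - 2) ih2)) ?_
      intro x
      simp only [List.length_cons, List.replicate_succ, row, Fintype.sum_bool, cw]
      ring

theorem Q_snd {n : ℕ} {f : ℂ → DualNumber ℂ} (hf : Q (R := DualNumber ℂ) TrivSqZeroExt.inl n f) :
    Q (R := ℂ) (fun x => x) n (fun x => TrivSqZeroExt.snd (f x)) := by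
  obtain ⟨P, hP, hP'⟩ := hf
  refine ⟨∑ i ∈ range (P.natDegree + 1), monomial i (TrivSqZeroExt.snd (P.coeff i)), ?_, ?_⟩
  · intro j hj
    rw [finsetSum_coeff]
    apply sum_eq_zero
    intro i hi
    rw [coeff_monomial]
    split_ifs with h
    · rw [h, hP j hj]
      simp
    · rfl
  · intro x
    simp only
    rw [hP', eval_eq_sum_range, eval_finsetSum, TrivSqZeroExt.snd_sum]
    apply sum_congr rfl
    intro i hi
    rw [eval_monomial, TrivSqZeroExt.inl_pow]
    simp

theorem t_DEG : S_DEG := by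
  intro z v
  constructor
  · intro hv
    have hl : 1 ≤ v.length := List.length_pos_iff.mpr hv
    obtain ⟨P, hP, hP'⟩ := row_false (R := ℂ) (fun x => x) z v
      (fun t ss' => if t then Z (fun a b : ℂ => cw z (a * b)) (fun _ => k0) v ss' else 0) (by simp)
    refine ⟨P, ?_, ?_⟩
    · rw [natDegree_le_iff_coeff_eq_zero]
      intro N hN
      exact hP N (by omega)
    · intro x
      rw [← hP' x]
      simp [G, Z, k0, List.replicate_succ]
  · have h1 := row_false (R := DualNumber ℂ) TrivSqZeroExt.inl (TrivSqZeroExt.inl z) v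
      (fun t ss' => if t then Z (L := ℂ) (R := DualNumber ℂ)
        (fun a b => cw (TrivSqZeroExt.inl z) (TrivSqZeroExt.inl a * TrivSqZeroExt.inl b))
        (fun w => ke (TrivSqZeroExt.inl z) DualNumber.eps (TrivSqZeroExt.inl w)) v ss' else 0)
      (by simp)
    have h2 := row_true (R := DualNumber ℂ) TrivSqZeroExt.inl (TrivSqZeroExt.inl z) v
      (fun t ss' => if t then Z (L := ℂ) (R := DualNumber ℂ)
        (fun a b => cw (TrivSqZeroExt.inl z) (TrivSqZeroExt.inl a * TrivSqZeroExt.inl b))
        (fun w => ke (TrivSqZeroExt.inl z) DualNumber.eps (TrivSqZeroExt.inl w)) v ss' else 0)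
    have h3 := Q_add _ (Q_lin _ 1 ((TrivSqZeroExt.inl z) ^ 2) h1) (Q_smul _ DualNumber.eps h2)
    have h4 : Q (R := DualNumber ℂ) TrivSqZeroExt.inl (v.length + 1) (fun x => ZD z (x :: v)) := by
      refine Q_congr _ h3 ?_
      intro x
      simp only [ZD, Z, List.length_cons, List.replicate_succ, Fintype.sum_bool, ke]
      simp
      ring
    obtain ⟨P, hP, hP'⟩ := Q_snd h4
    refine ⟨P, ?_, ?_⟩
    · rw [natDegree_le_iff_coeff_eq_zero]
      intro N hN
      exact hP N (by omega)
    · intro x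
      exact hP' x

end Pool.Agent.U588.OA
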